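import Mathlib

set_option autoImplicit false

/-!
Connectedness of half spaces in Cayley graphs: change of generators, finite index.
-/

namespace Pool.Agent.BNSD

open Relation

variable {G : Type*} [Group G]

/-- Joined by a path of steps in `X` along which `f ≥ r`. -/
def J (X : Set G) (f : G → ℝ) (r : ℝ) : G → G → Prop :=
  ReflTransGen fun a b => (∃ x ∈ X, a * x = b ∨ b * x = a) ∧ r ≤ f a ∧ r ≤ f b

variable {X Y : Set G} {f : G → ℝ} {r s : ℝ} {a b c : G}

lemma J.refl' (X : Set G) (f : G → ℝ) (r : ℝ) (a : G) : J X f r a a := ReflTransGen.refl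

lemma J.tr (h : J X f r a b) (h' : J X f r b c) : J X f r a c := ReflTransGen.trans h h'

lemma J.sy (h : J X f r a b) : J X f r b a := by
  induction h with
  | refl => exact ReflTransGen.refl
  | tail _ h2 ih =>
    obtain ⟨⟨z, hz, h1⟩, h3, h4⟩ := h2
    exact ReflTransGen.head ⟨⟨z, hz, h1.symm⟩, h4, h3⟩ ih

lemma J.mono (h : J X f r a b) (hrs : s ≤ r) : J X f s a b := by
  induction h with
  | refl => exact ReflTransGen.refl
  | tail _ h2 ih => exact ReflTransGen.tail ih ⟨h2.1, hrs.trans h2.2.1, hrs.trans h2.2.2⟩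

lemma J.translate (hf : ∀ a b, f (a * b) = f a + f b) (t : G) (h : J X f r a b) :
    J X f (f t + r) (t * a) (t * b) := by
  induction h with
  | refl => exact J.refl' _ _ _ _
  | tail _ h2 ih =>
    refine ReflTransGen.tail ih ⟨?_, ?_, ?_⟩
    · obtain ⟨⟨x, hx, h⟩, -, -⟩ := h2
      refine ⟨x, hx, ?_⟩
      rcases h with h | h
      · left; rw [mul_assoc, h]
      · right; rw [mul_assoc, h]
    · rw [hf]; linarith [h2.2.1]
    · rw [hf]; linarith [h2.2.2]

lemma f_one (hf : ∀ a b, f (a * b) = f a + f b) : f 1 = 0 := by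
  have := hf 1 1
  simp at this
  linarith

lemma f_inv (hf : ∀ a b, f (a * b) = f a + f b) (a : G) : f a⁻¹ = - f a := by
  have := hf a a⁻¹
  rw [mul_inv_cancel, f_one hf] at this
  linarith

lemma f_pow (hf : ∀ a b, f (a * b) = f a + f b) (a : G) (n : ℕ) : f (a ^ n) = n * f a := by
  induction n with
  | zero => simp [f_one hf]
  | succ n ih => rw [pow_succ, hf, ih]; push_cast; ring

/-- every element of the subgroup generated by `X` is joined to `1` at some level -/
lemma exists_level (hf : ∀ a b, f (a * b) = f a + f b) {g : G} (hg : g ∈ Subgroup.closure X) :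
    ∃ r : ℝ, J X f r 1 g := by
  induction hg using Subgroup.closure_induction with
  | mem x hx =>
    refine ⟨min 0 (f x), ReflTransGen.single ⟨⟨x, hx, Or.inl (one_mul x)⟩, ?_, min_le_right _ _⟩⟩
    rw [f_one hf]; exact min_le_left _ _
  | one => exact ⟨0, J.refl' _ _ _ _⟩
  | mul a b _ _ ha hb =>
    obtain ⟨r, hr⟩ := ha
    obtain ⟨s, hs⟩ := hb
    have h := hs.translate hf a
    rw [mul_one] at h
    exact ⟨min r (f a + s), (hr.mono (min_le_left _ _)).tr (h.mono (min_le_right _ _))⟩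
  | inv a _ ha =>
    obtain ⟨r, hr⟩ := ha
    have h := hr.translate hf a⁻¹
    rw [mul_one, inv_mul_cancel] at h
    exact ⟨_, h.sy⟩

/-- a uniform level for finitely many elements -/
lemma exists_level_finite (hf : ∀ a b, f (a * b) = f a + f b) {F : Set G} (hF : F.Finite)
    (hX : F ⊆ Subgroup.closure X) : ∃ c : ℝ, 0 ≤ c ∧ ∀ g ∈ F, J X f (-c) 1 g := by
  induction F, hF using Set.Finite.induction_on with
  | empty => exact ⟨0, le_rfl, by simp⟩
  | insert _ _ ih =>
    rename_i a s _ _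
    obtain ⟨c, hc, h⟩ := ih ((Set.subset_insert _ _).trans hX)
    obtain ⟨r, hr⟩ := exists_level (X := X) hf (hX (Set.mem_insert a s))
    refine ⟨max c (-r), le_max_of_le_left hc, ?_⟩
    rintro g (rfl | hg)
    · exact hr.mono (by linarith [le_max_right c (-r)])
    · exact (h g hg).mono (by linarith [le_max_left c (-r)])

/-- steps in a finite set are replaced by paths of steps in `X` -/
lemma convert (hf : ∀ a b, f (a * b) = f a + f b) {F : Set G} (hF : F.Finite)
    (hX : F ⊆ Subgroup.closure X) :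
    ∃ c : ℝ, 0 ≤ c ∧ ∀ r a b, J F f r a b → J X f (r - c) a b := by
  obtain ⟨c, hc, h⟩ := exists_level_finite (X := X) hf hF hX
  refine ⟨c, hc, ?_⟩
  intro r a b hab
  induction hab with
  | refl => exact J.refl' _ _ _ _
  | tail _ h2 ih =>
    rename_i b d _
    refine ih.tr ?_
    obtain ⟨⟨x, hx, h1⟩, h3, h4⟩ := h2
    rcases h1 with h1 | h1
    · have h5 := (h x hx).translate hf b
      rw [mul_one, h1] at h5
      exact h5.mono (by linarith)
    · have h5 := (h x hx).translate hf d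
      rw [mul_one, h1] at h5
      exact h5.sy.mono (by linarith)

/-- a generator with `f > 0`, up to inversion -/
lemma exists_pos (hf : ∀ a b, f (a * b) = f a + f b) (hX : Subgroup.closure X = ⊤)
    (h0 : ∃ g, f g ≠ 0) : ∃ y : G, 0 < f y ∧ ∀ a : G, ∃ x ∈ X, a * x = a * y ∨ a * y * x = a := by
  have : ∃ x ∈ X, f x ≠ 0 := by
    by_contra hcon
    push Not at hcon
    obtain ⟨g, hg⟩ := h0
    apply hg
    have hmem : g ∈ Subgroup.closure X := by rw [hX]; trivial
    clear hg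
    induction hmem using Subgroup.closure_induction with
    | mem x hx => exact hcon x hx
    | one => exact f_one hf
    | mul a b _ _ ha hb => rw [hf, ha, hb, add_zero]
    | inv a _ ha => rw [f_inv hf, ha, neg_zero]
  obtain ⟨x, hx, hfx⟩ := this
  rcases lt_or_gt_of_ne hfx with h | h
  · refine ⟨x⁻¹, by rw [f_inv hf]; linarith, fun a => ⟨x, hx, Or.inr ?_⟩⟩
    rw [mul_assoc, inv_mul_cancel, mul_one]
  · exact ⟨x, h, fun a => ⟨x, hx, Or.inl rfl⟩⟩

lemma climb (hf : ∀ a b, f (a * b) = f a + f b) {y : G} (hy : 0 < f y)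
    (hstep : ∀ a : G, ∃ x ∈ X, a * x = a * y ∨ a * y * x = a) (a : G) (n : ℕ) :
    J X f (f a) a (a * y ^ n) := by
  induction n with
  | zero => rw [pow_zero, mul_one]; exact J.refl' _ _ _ _
  | succ n ih =>
    refine ReflTransGen.tail ih ⟨?_, ?_, ?_⟩
    · obtain ⟨x, hx, h⟩ := hstep (a * y ^ n)
      refine ⟨x, hx, ?_⟩
      rw [pow_succ, ← mul_assoc]
      exact h
    · rw [hf, f_pow hf]
      have : 0 ≤ (n : ℝ) * f y := by positivity
      linarith
    · rw [hf, f_pow hf]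
      have : 0 ≤ ((n + 1 : ℕ) : ℝ) * f y := by positivity
      linarith

/-- essential connectedness implies connectedness -/
lemma ess (hf : ∀ a b, f (a * b) = f a + f b) (hX : Subgroup.closure X = ⊤)
    (h0 : ∃ g, f g ≠ 0) (h : ∀ g, 0 ≤ f g → J X f (-r) 1 g) : ∀ g, 0 ≤ f g → J X f 0 1 g := by
  obtain ⟨y, hy, hstep⟩ := exists_pos hf hX h0
  obtain ⟨n, hn⟩ := exists_nat_ge (r / f y)
  have hn' : r ≤ f (y ^ n) := by
    rw [f_pow hf]
    rwa [div_le_iff₀ hy] at hn
  intro g hg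
  have h1 : J X f 0 1 (y ^ n) := by
    have := climb hf hy hstep 1 n
    rwa [f_one hf, one_mul] at this
  have h2 : J X f 0 g (g * y ^ n) := (climb hf hy hstep g n).mono hg
  have h3 : J X f 0 (y ^ n) (g * y ^ n) := by
    have h4 : 0 ≤ f ((y ^ n)⁻¹ * g * y ^ n) := by
      rw [hf, hf, f_inv hf]; linarith
    have h5 := (h _ h4).translate hf (y ^ n)
    rw [mul_one] at h5
    have h6 : y ^ n * ((y ^ n)⁻¹ * g * y ^ n) = g * y ^ n := by group
    rw [h6] at h5
    exact h5.mono (by linarith)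
  exact (h1.tr h3).tr h2.sy

/-- right cosets -/
lemma cosets (H : Subgroup G) [H.FiniteIndex] :
    ∃ T : Set G, T.Finite ∧ (1 : G) ∈ T ∧ ∀ g : G, ∃ h : H, ∃ t ∈ T, g = h * t := by
  refine ⟨insert 1 (Set.range fun q : G ⧸ H => (q.out)⁻¹), (Set.finite_range _).insert _,
    Set.mem_insert _ _, ?_⟩
  intro g
  set c : G := ((g⁻¹ : G) : G ⧸ H).out with hc
  have h1 : c⁻¹ * g⁻¹ ∈ H := by
    rw [← QuotientGroup.eq]
    exact Quotient.out_eq _
  have h2 : g * c ∈ H := by
    have := H.inv_mem h1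
    simpa using this
  refine ⟨⟨g * c, h2⟩, c⁻¹, Set.mem_insert_of_mem _ ⟨_, rfl⟩, ?_⟩
  simp

omit [Group G] in
lemma bound (f : G → ℝ) {T : Set G} (hT : T.Finite) : ∃ M : ℝ, 0 ≤ M ∧ ∀ t ∈ T, |f t| ≤ M := by
  induction T, hT using Set.Finite.induction_on with
  | empty => exact ⟨0, le_rfl, by simp⟩
  | insert _ _ ih =>
    rename_i a s _ _
    obtain ⟨M, hM, h⟩ := ih
    refine ⟨max M |f a|, le_max_of_le_left hM, ?_⟩
    rintro t (rfl | ht)
    · exact le_max_right _ _
    · exact (h t ht).trans (le_max_left _ _)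

variable {H : Subgroup G} [H.FiniteIndex] {Z : Set H}

/-- from the subgroup to the group -/
lemma up (hf : ∀ a b, f (a * b) = f a + f b) (hX : Subgroup.closure X = ⊤)
    (h0 : ∃ g : H, f g ≠ 0) (hZ : Z.Finite) (hZ' : Subgroup.closure Z = ⊤)
    (h : ∀ g : H, 0 ≤ f g → J Z (fun k : H => f k) 0 1 g) :
    ∃ r : ℝ, ∀ g, 0 ≤ f g → J X f (-r) 1 g := by
  obtain ⟨T, hT, h1T, hT'⟩ := cosets H
  obtain ⟨M, hM0, hM⟩ := bound f hT
  have hfH : ∀ a b : H, f ((a * b : H) : G) = f a + f b := fun a b => by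
    rw [Subgroup.coe_mul, hf]
  -- an element of `H` with large value
  obtain ⟨y, hy, -⟩ := exists_pos (f := fun k : H => f k) hfH hZ' h0
  obtain ⟨n, hn⟩ := exists_nat_ge (M / f y)
  have hn' : M ≤ f ((y ^ n : H) : G) := by
    have := f_pow (f := fun k : H => f k) hfH y n
    rw [this]
    rwa [div_le_iff₀ hy] at hn
  set s : H := y ^ n with hs
  -- from paths in `H` to paths in `G`
  have hmap : ∀ a b : H, J Z (fun k : H => f k) 0 a b →
      J (((↑) : H → G) '' Z) f 0 (a : G) (b : G) := by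
    intro a b hab
    induction hab with
    | refl => exact J.refl' _ _ _ _
    | tail _ h2 ih =>
      obtain ⟨⟨x, hx, h3⟩, h4, h5⟩ := h2
      refine ReflTransGen.tail ih ⟨⟨(x : G), ⟨x, hx, rfl⟩, ?_⟩, h4, h5⟩
      rcases h3 with h3 | h3
      · left; rw [← h3]; rfl
      · right; rw [← h3]; rfl
  have htop : ∀ F : Set G, F ⊆ Subgroup.closure X := fun F g _ => by rw [hX]; trivial
  obtain ⟨c₁, hc₁, hconv⟩ := convert (X := X) hf (hZ.image ((↑) : H → G)) (htop _)
  obtain ⟨c₂, hc₂, hlev⟩ := exists_level_finite (X := X) hf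
    (hT.insert ((s⁻¹ : H) : G)) (htop _)
  refine ⟨c₁ + c₂ + M, ?_⟩
  intro g hg
  obtain ⟨k, t, ht, hgt⟩ := hT' g
  have hk : -M ≤ f k := by
    have h2 : f g = f k + f t := by rw [hgt, hf]
    have h3 := hM t ht
    have h4 := (abs_le.1 h3).2
    linarith
  have hks : 0 ≤ f ((k * s : H) : G) := by rw [hfH]; linarith
  have p1 : J X f (-(c₁ + c₂ + M)) 1 ((k * s : H) : G) := by
    have := hconv _ _ _ (hmap _ _ (h (k * s) hks))
    refine (this.mono ?_)
    linarith
  have p2 : J X f (-(c₁ + c₂ + M)) ((k * s : H) : G) (k : G) := by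
    have h5 := (hlev ((s⁻¹ : H) : G) (Set.mem_insert _ _)).translate hf ((k * s : H) : G)
    rw [mul_one] at h5
    have h6 : ((k * s : H) : G) * ((s⁻¹ : H) : G) = k := by
      rw [← Subgroup.coe_mul]; simp
    rw [h6] at h5
    exact h5.mono (by linarith)
  have p3 : J X f (-(c₁ + c₂ + M)) (k : G) g := by
    have h5 := (hlev t (Set.mem_insert_of_mem _ ht)).translate hf (k : G)
    rw [mul_one, ← hgt] at h5
    exact h5.mono (by linarith)
  exact (p1.tr p2).tr p3

/-- from the group to the subgroup -/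
lemma down (hf : ∀ a b, f (a * b) = f a + f b) (hXf : X.Finite)
    (hZ' : Subgroup.closure Z = ⊤)
    (h : ∀ g : G, 0 ≤ f g → J X f 0 1 g) :
    ∃ r : ℝ, ∀ g : H, 0 ≤ f g → J Z (fun k : H => f k) (-r) 1 g := by
  obtain ⟨T, hT, h1T, hT'⟩ := cosets H
  obtain ⟨M, hM0, hM⟩ := bound f hT
  have hfH : ∀ a b : H, f ((a * b : H) : G) = f a + f b := fun a b => by
    rw [Subgroup.coe_mul, hf]
  -- the finite set of steps
  set W : Set G := insert 1 (X ∪ X⁻¹) with hW
  have hWf : W.Finite := (hXf.union hXf.inv).insert _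
  set F : Set H := {k | ∃ t ∈ T, ∃ z ∈ W, ∃ u ∈ T, (k : G) = t * z * u⁻¹} with hF
  have hFf : F.Finite := by
    have h1 : (Set.image2 (fun p u : G => p * u⁻¹) (Set.image2 (fun t z : G => t * z) T W) T).Finite :=
      (hT.image2 _ hWf).image2 _ hT
    refine Set.Finite.subset (h1.preimage (f := ((↑) : H → G)) Subtype.val_injective.injOn) ?_
    rintro k ⟨t, ht, z, hz, u, hu, hk⟩
    exact ⟨t * z, ⟨t, ht, z, hz, rfl⟩, u, hu, hk.symm⟩
  obtain ⟨c, hc, hconv⟩ := convert (X := Z) (f := fun k : H => f k) hfH hFf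
    (fun k _ => by rw [hZ']; trivial)
  have key : ∀ b : G, J X f 0 1 b → 0 ≤ f b → ∀ (k : H), ∀ t ∈ T, b = k * t →
      J F (fun k : H => f k) (-M) 1 k := by
    intro b hb
    have hlow : ∀ (b : G) (k : H), ∀ t ∈ T, b = k * t → 0 ≤ f b → -M ≤ f k := by
      intro b k t ht hbk hb0
      have h2 : f b = f k + f t := by rw [hbk, hf]
      have h4 := (abs_le.1 (hM t ht)).2
      linarith
    induction hb with
    | refl =>
      intro hb0 k t ht hbk
      refine ReflTransGen.single ⟨⟨k, ⟨1, h1T, 1, Set.mem_insert _ _, t, ht, ?_⟩,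
        Or.inl (one_mul k)⟩, ?_, ?_⟩
      · rw [eq_mul_inv_iff_mul_eq, ← hbk]; simp
      · simp only [Subgroup.coe_one, f_one hf]; linarith
      · exact hlow _ _ _ ht hbk hb0
    | tail _ h2 ih =>
      rename_i b d _
      intro hd0 k t ht hbk
      obtain ⟨⟨x, hx, h3⟩, h4, h5⟩ := h2
      obtain ⟨l, u, hu, hlu⟩ := hT' b
      have p := ih h4 l u hu hlu
      refine ReflTransGen.tail p ⟨⟨l⁻¹ * k, ?_, Or.inl (by group)⟩, hlow _ _ _ hu hlu h4,
        hlow _ _ _ ht hbk hd0⟩
      -- `d = b z` with `z ∈ W`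
      obtain ⟨z, hz, hdz⟩ : ∃ z ∈ W, d = b * z := by
        rcases h3 with h3 | h3
        · exact ⟨x, Set.mem_insert_of_mem _ (Or.inl hx), h3.symm⟩
        · refine ⟨x⁻¹, Set.mem_insert_of_mem _ (Or.inr (Set.inv_mem_inv.2 hx)), ?_⟩
          rw [← h3]; group
      refine ⟨u, hu, z, hz, t, ht, ?_⟩
      rw [eq_mul_inv_iff_mul_eq, Subgroup.coe_mul, Subgroup.coe_inv, mul_assoc, ← hbk, hdz, hlu]
      group
  refine ⟨M + c, ?_⟩
  intro g hg
  have := hconv _ _ _ (key (g : G) (h g hg) hg g 1 h1T (by simp))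
  exact this.mono (by linarith)

end Pool.Agent.BNSD
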