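import Pool.Agent.BNSD.Conn

set_option autoImplicit false

/-!
Half spaces in Cayley graphs and homomorphisms with finitely generated kernel and image of finite
index.
-/

namespace Pool.Agent.BNSD

open Relation

variable {K L : Type*} [Group K] [Group L]

lemma map_path (p : K →* L) {Z : Set K} {f : L → ℝ} {r : ℝ} {a b : K}
    (h : J Z (fun k => f (p k)) r a b) : J (p '' Z) f r (p a) (p b) := by
  induction h with
  | refl => exact J.refl' _ _ _ _
  | tail _ h2 ih =>
    obtain ⟨⟨x, hx, h3⟩, h4, h5⟩ := h2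
    refine ReflTransGen.tail ih ⟨⟨p x, ⟨x, hx, rfl⟩, ?_⟩, h4, h5⟩
    rcases h3 with h3 | h3
    · left; rw [← h3, map_mul]
    · right; rw [← h3, map_mul]

lemma lift_path (p : K →* L) {Z : Set K} {f : L → ℝ} {l : L}
    (h : J (p '' Z) f 0 1 l) : ∃ k, p k = l ∧ J Z (fun k => f (p k)) 0 1 k := by
  induction h with
  | refl => exact ⟨1, map_one p, J.refl' _ _ _ _⟩
  | tail _ h2 ih =>
    rename_i l m _
    obtain ⟨k, hk, hJ⟩ := ih
    obtain ⟨⟨_, ⟨z, hz, rfl⟩, h3⟩, h4, h5⟩ := h2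
    rcases h3 with h3 | h3
    · refine ⟨k * z, by rw [map_mul, hk, h3], ReflTransGen.tail hJ ⟨⟨z, hz, Or.inl rfl⟩, ?_, ?_⟩⟩
      · simp only [hk]; exact h4
      · simp only [map_mul, hk, h3]; exact h5
    · have h6 : p (k * z⁻¹) = m := by rw [map_mul, hk, map_inv, ← h3]; group
      refine ⟨k * z⁻¹, h6, ReflTransGen.tail hJ ⟨⟨z, hz, Or.inr (by group)⟩, ?_, ?_⟩⟩
      · simp only [hk]; exact h4
      · simp only [h6]; exact h5

lemma zero_path {N : Set K} {f : K → ℝ} (hf : ∀ a b, f (a * b) = f a + f b)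
    (h0 : ∀ n ∈ Subgroup.closure N, f n = 0) {n : K} (hn : n ∈ Subgroup.closure N) :
    J N f 0 1 n := by
  induction hn using Subgroup.closure_induction with
  | mem x hx =>
    refine ReflTransGen.single ⟨⟨x, hx, Or.inl (one_mul x)⟩, (f_one hf).ge, ?_⟩
    exact (h0 x (Subgroup.subset_closure hx)).ge
  | one => exact J.refl' _ _ _ _
  | mul a b ha hb iha ihb =>
    have h := ihb.translate hf a
    rw [mul_one, h0 a ha, zero_add] at h
    exact iha.tr h
  | inv a ha iha =>
    have h := iha.translate hf a⁻¹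
    rw [mul_one, inv_mul_cancel, f_inv hf, h0 a ha, neg_zero, zero_add] at h
    exact h.sy

/-- surjections with finitely generated kernel -/
lemma kernel_iff (p : K →* L) (hp : Function.Surjective p) (hker : p.ker.FG) {Z : Set K}
    (hZ : Subgroup.closure Z = ⊤) {f : L → ℝ} (hf : ∀ a b, f (a * b) = f a + f b)
    (h0 : ∃ l, f l ≠ 0) :
    (∀ k, 0 ≤ f (p k) → J Z (fun k => f (p k)) 0 1 k) ↔
      ∀ l, 0 ≤ f l → J (p '' Z) f 0 1 l := by
  have hfp : ∀ a b : K, f (p (a * b)) = f (p a) + f (p b) := fun a b => by rw [map_mul, hf]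
  constructor
  · intro h l hl
    obtain ⟨k, rfl⟩ := hp l
    have := map_path p (h k hl)
    rwa [map_one] at this
  · intro h
    obtain ⟨N, hN, hNf⟩ := (Subgroup.fg_iff _).1 hker
    obtain ⟨c, hc, hconv⟩ := convert (X := Z) (f := fun k => f (p k)) hfp hNf
      (fun k _ => by rw [hZ]; trivial)
    have h0' : ∃ k, f (p k) ≠ 0 := by
      obtain ⟨l, hl⟩ := h0
      obtain ⟨k, rfl⟩ := hp l
      exact ⟨k, hl⟩
    refine ess (r := c) (f := fun k => f (p k)) hfp hZ h0' ?_
    intro k hk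
    obtain ⟨k', hk', hJ⟩ := lift_path p (h (p k) hk)
    have hn : k'⁻¹ * k ∈ Subgroup.closure N := by
      rw [hN, MonoidHom.mem_ker, map_mul, map_inv, hk', inv_mul_cancel]
    have hz := zero_path (f := fun k => f (p k)) hfp (fun n hn => by
      rw [hN, MonoidHom.mem_ker] at hn
      simp only [hn, f_one hf]) hn
    have hz' := hz.translate hfp k'
    rw [mul_one, mul_inv_cancel_left] at hz'
    have hz'' := hconv _ _ _ hz'
    refine (hJ.mono (by linarith)).tr (hz''.mono ?_)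
    simp only [hk']
    linarith

/-- homomorphisms with finitely generated kernel and image of finite index -/
lemma hom_iff (i : K →* L) (hker : i.ker.FG) [i.range.FiniteIndex] {X : Set L} {Z : Set K}
    (hX : Subgroup.closure X = ⊤) (hXf : X.Finite) (hZ : Subgroup.closure Z = ⊤) (hZf : Z.Finite)
    {f : L → ℝ} (hf : ∀ a b, f (a * b) = f a + f b) (h0 : ∃ k, f (i k) ≠ 0) :
    (∀ k, 0 ≤ f (i k) → J Z (fun k => f (i k)) 0 1 k) ↔ ∀ l, 0 ≤ f l → J X f 0 1 l := by
  have hfH : ∀ a b : i.range, f ((a * b : i.range) : L) = f a + f b := fun a b => by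
    rw [Subgroup.coe_mul, hf]
  have h0H : ∃ h : i.range, f h ≠ 0 := by
    obtain ⟨k, hk⟩ := h0
    exact ⟨⟨i k, ⟨k, rfl⟩⟩, hk⟩
  have h1 := kernel_iff i.rangeRestrict i.rangeRestrict_surjective
    (by rw [MonoidHom.ker_rangeRestrict]; exact hker) hZ (f := fun h : i.range => f h) hfH h0H
  have hgen : Subgroup.closure (i.rangeRestrict '' Z) = ⊤ := by
    rw [← MonoidHom.map_closure, hZ, ← MonoidHom.range_eq_map]
    exact MonoidHom.range_eq_top.2 i.rangeRestrict_surjective
  have h2 : (∀ h : i.range, 0 ≤ f h → J (i.rangeRestrict '' Z) (fun h : i.range => f h) 0 1 h) ↔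
      ∀ l, 0 ≤ f l → J X f 0 1 l := by
    constructor
    · intro h
      obtain ⟨r, hr⟩ := up hf hX h0H (hZf.image _) hgen h
      exact ess hf hX (by obtain ⟨h, hh⟩ := h0H; exact ⟨h, hh⟩) hr
    · intro h
      obtain ⟨r, hr⟩ := down (H := i.range) (Z := i.rangeRestrict '' Z) hf hXf hgen h
      exact ess hfH hgen h0H hr
  exact h1.trans h2

/-- finite index: a nonzero homomorphism to the reals does not vanish on the image -/
lemma exists_ne (i : K →* L) [i.range.FiniteIndex] {f : L → ℝ}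
    (hf : ∀ a b, f (a * b) = f a + f b) (h0 : ∃ l, f l ≠ 0) : ∃ k, f (i k) ≠ 0 := by
  by_contra hcon
  push Not at hcon
  obtain ⟨T, hT, -, hT'⟩ := cosets i.range
  obtain ⟨M, hM0, hM⟩ := bound f hT
  have hb : ∀ g, |f g| ≤ M := by
    intro g
    obtain ⟨⟨_, ⟨k, rfl⟩⟩, t, ht, rfl⟩ := hT' g
    rw [hf]
    simp only [hcon k, zero_add]
    exact hM t ht
  obtain ⟨l, hl⟩ := h0
  obtain ⟨n, hn⟩ := exists_nat_gt (M / |f l|)
  have hpos : 0 < |f l| := abs_pos.2 hl
  have h1 := hb (l ^ n)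
  rw [f_pow hf, abs_mul, Nat.abs_cast] at h1
  rw [div_lt_iff₀ hpos] at hn
  linarith

end Pool.Agent.BNSD
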