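import Mathlib

set_option autoImplicit false

/-!
Convex hulls of finite sets and their extreme points.
-/

namespace Pool.Agent.BNSD

variable {E : Type*} [AddCommGroup E] [Module ℝ E]

/-- a set on which `v` is the only maximum of `L` -/
lemma hull_claim (L : E →ₗ[ℝ] ℝ) (T : Set E) (v : E) (h : ∀ w ∈ T, w ≠ v → L w < L v) :
    ∀ x ∈ convexHull ℝ T, x = v ∨ L x < L v := by
  have hsub : T ⊆ {x | x = v ∨ L x < L v} := by
    intro w hw
    by_cases hwv : w = v
    · exact Or.inl hwv
    · exact Or.inr (h w hw hwv)
  have hconv : Convex ℝ {x : E | x = v ∨ L x < L v} := by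
    intro x hx y hy a b ha hb hab
    rcases eq_or_lt_of_le ha with ha0 | ha0
    · have hb1 : b = 1 := by linarith
      rw [← ha0, hb1, zero_smul, one_smul, zero_add]; exact hy
    rcases eq_or_lt_of_le hb with hb0 | hb0
    · have ha1 : a = 1 := by linarith
      rw [← hb0, ha1, zero_smul, one_smul, add_zero]; exact hx
    rcases hx with hx | hx <;> rcases hy with hy | hy
    · left; rw [hx, hy, ← add_smul, hab, one_smul]
    · right
      rw [map_add, map_smul, map_smul, hx, smul_eq_mul, smul_eq_mul]
      have : b * L y < b * L v := mul_lt_mul_of_pos_left hy hb0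
      have h2 : a * L v + b * L v = L v := by rw [← add_mul, hab, one_mul]
      linarith
    · right
      rw [map_add, map_smul, map_smul, hy, smul_eq_mul, smul_eq_mul]
      have : a * L x < a * L v := mul_lt_mul_of_pos_left hx ha0
      have h2 : a * L v + b * L v = L v := by rw [← add_mul, hab, one_mul]
      linarith
    · right
      rw [map_add, map_smul, map_smul, smul_eq_mul, smul_eq_mul]
      have h1 : a * L x < a * L v := mul_lt_mul_of_pos_left hx ha0
      have h3 : b * L y < b * L v := mul_lt_mul_of_pos_left hy hb0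
      have h2 : a * L v + b * L v = L v := by rw [← add_mul, hab, one_mul]
      linarith
  intro x hx
  exact convexHull_min hsub hconv hx

lemma unique_max (L : E →ₗ[ℝ] ℝ) (T : Set E) {v : E} (hv : v ∈ T)
    (h : ∀ w ∈ T, w ≠ v → L w < L v) : v ∈ (convexHull ℝ T).extremePoints ℝ := by
  have hc := hull_claim L T v h
  refine mem_extremePoints.2 ⟨subset_convexHull ℝ T hv, ?_⟩
  rintro x hx y hy ⟨a, b, ha, hb, hab, hxy⟩
  have h2 : a * L x + b * L y = L v := by
    rw [← hxy, map_add, map_smul, map_smul]; rfl
  have h3 : a * L v + b * L v = L v := by rw [← add_mul, hab, one_mul]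
  rcases hc x hx with h4 | h4 <;> rcases hc y hy with h5 | h5
  · exact ⟨h4, h5⟩
  · exfalso
    have := mul_lt_mul_of_pos_left h5 hb
    rw [h4] at h2; linarith
  · exfalso
    have := mul_lt_mul_of_pos_left h4 ha
    rw [h5] at h2; linarith
  · exfalso
    have h6 := mul_lt_mul_of_pos_left h4 ha
    have h7 := mul_lt_mul_of_pos_left h5 hb
    linarith

lemma mem_hull_erase {S : Set E} {s : E} (hs : s ∈ S)
    (hne : s ∉ (convexHull ℝ S).extremePoints ℝ) : s ∈ convexHull ℝ (S \ {s}) := by
  rw [mem_extremePoints] at hne
  push Not at hne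
  obtain ⟨x, hx, y, hy, ⟨a, b, ha, hb, hab, hxy⟩, hns⟩ := hne (subset_convexHull ℝ S hs)
  have hins : S = insert s (S \ {s}) := by
    ext z
    by_cases hz : z = s
    · simp [hz, hs]
    · simp [hz]
  by_cases hemp : (S \ {s}).Nonempty
  · rw [hins, convexHull_insert hemp, convexJoin_singleton_left] at hx hy
    simp only [Set.mem_iUnion, exists_prop] at hx hy
    obtain ⟨p, hp, a₁, b₁, ha₁, hb₁, hab₁, hx'⟩ := hx
    obtain ⟨q, hq, a₂, b₂, ha₂, hb₂, hab₂, hy'⟩ := hy
    set c : ℝ := a * b₁ + b * b₂ with hc
    have hc0 : 0 ≤ c := by positivity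
    rcases eq_or_lt_of_le hc0 with hc1 | hc1
    · exfalso
      have e1 : a * b₁ = 0 := by nlinarith [mul_nonneg ha.le hb₁, mul_nonneg hb.le hb₂]
      have e2 : b * b₂ = 0 := by nlinarith [mul_nonneg ha.le hb₁, mul_nonneg hb.le hb₂]
      have f1 : b₁ = 0 := by
        rcases mul_eq_zero.1 e1 with h | h
        · linarith
        · exact h
      have f2 : b₂ = 0 := by
        rcases mul_eq_zero.1 e2 with h | h
        · linarith
        · exact h
      have g1 : a₁ = 1 := by linarith
      have g2 : a₂ = 1 := by linarith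
      rw [f1, g1, one_smul, zero_smul, add_zero] at hx'
      rw [f2, g2, one_smul, zero_smul, add_zero] at hy'
      exact hns hx'.symm hy'.symm
    · have key : c • s = (a * b₁) • p + (b * b₂) • q := by
        have h1 : s = (a * a₁ + b * a₂) • s + ((a * b₁) • p + (b * b₂) • q) := by
          conv_lhs => rw [← hxy, ← hx', ← hy']
          module
        have h2 : c = 1 - (a * a₁ + b * a₂) := by
          rw [hc]
          have : a₁ = 1 - b₁ := by linarith
          have h' : a₂ = 1 - b₂ := by linarith
          rw [this, h']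
          linear_combination hab
        rw [h2, sub_smul, one_smul]
        nth_rewrite 1 [h1]
        abel
      have h3 : s = (a * b₁ / c) • p + (b * b₂ / c) • q := by
        have h4 : s = c⁻¹ • (c • s) := by rw [smul_smul, inv_mul_cancel₀ hc1.ne', one_smul]
        rw [h4, key, smul_add, smul_smul, smul_smul]
        congr 2 <;> ring
      have h5 : (a * b₁ / c) • p + (b * b₂ / c) • q ∈ convexHull ℝ (S \ {s}) := by
        refine convex_convexHull ℝ _ hp hq (by positivity) (by positivity) ?_
        rw [← add_div, ← hc, div_self hc1.ne']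
      rw [← h3] at h5
      exact h5
  · exfalso
    rw [Set.not_nonempty_iff_eq_empty] at hemp
    rw [hins, hemp, insert_empty_eq, convexHull_singleton, Set.mem_singleton_iff] at hx hy
    exact hns hx hy

lemma subset_hull_ext (S : Finset E) :
    (S : Set E) ⊆ convexHull ℝ ((convexHull ℝ (S : Set E)).extremePoints ℝ) := by
  classical
  induction S using Finset.strongInduction with
  | H S ih =>
    by_cases hall : ∀ s ∈ S, s ∈ (convexHull ℝ (S : Set E)).extremePoints ℝ
    · intro s hs
      exact subset_convexHull ℝ _ (hall s hs)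
    · push Not at hall
      obtain ⟨s, hs, hns⟩ := hall
      have h1 : s ∈ convexHull ℝ ((S : Set E) \ {s}) := mem_hull_erase hs hns
      have h2 : ((S.erase s : Finset E) : Set E) = (S : Set E) \ {s} := by
        rw [Finset.coe_erase]
      have h3 : convexHull ℝ (S : Set E) = convexHull ℝ ((S.erase s : Finset E) : Set E) := by
        rw [h2]
        refine Set.Subset.antisymm (convexHull_min ?_ (convex_convexHull ℝ _))
          (convexHull_mono Set.sdiff_subset)
        intro z hz
        by_cases hzs : z = s
        · rw [hzs]; exact h1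
        · exact subset_convexHull ℝ _ ⟨hz, hzs⟩
      have h4 := ih (S.erase s) (Finset.erase_ssubset hs)
      rw [← h3] at h4
      intro z hz
      have h5 : z ∈ convexHull ℝ (S : Set E) := subset_convexHull ℝ _ hz
      rw [h3] at h5
      exact convexHull_min h4 (convex_convexHull ℝ _) h5

/-- The unique maximum over the vertices is the unique maximum over the generating set. -/
lemma ext_iff {S : Set E} (hS : S.Finite) (M : Set E) (hM : M ⊆ S) (L : E →ₗ[ℝ] ℝ) :
    (∃ v ∈ M ∩ (convexHull ℝ S).extremePoints ℝ,
      ∀ w ∈ (convexHull ℝ S).extremePoints ℝ, w ≠ v → L w < L v) ↔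
      ∃ v ∈ M, ∀ w ∈ S, w ≠ v → L w < L v := by
  constructor
  · rintro ⟨v, ⟨hv, -⟩, h⟩
    refine ⟨v, hv, ?_⟩
    intro w hw hwv
    have h1 : w ∈ convexHull ℝ ((convexHull ℝ S).extremePoints ℝ) := by
      have := subset_hull_ext hS.toFinset
      rw [hS.coe_toFinset] at this
      exact this hw
    rcases hull_claim L _ v h w h1 with h2 | h2
    · exact absurd h2 hwv
    · exact h2
  · rintro ⟨v, hv, h⟩
    exact ⟨v, ⟨hv, unique_max L S (hM hv) h⟩, fun w hw hwv =>
      h w (extremePoints_convexHull_subset hw) hwv⟩

end Pool.Agent.BNSD
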