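import Mathlib

/-!
# Unique maximal vertices along segments

If every point of the two segments `[φ, ψ]`, `[ψ, -φ]` has a unique maximum on a finite set `T` of
linear functionals, then `T` has only one element.
-/

set_option autoImplicit false

namespace Pool.Agent.BNSD

lemma seg_unique {α : Type*} {T : Set α} (hT : T.Finite) {v : α} (A B : α → ℝ)
    (h0 : ∀ w ∈ T, w ≠ v → A w < A v)
    (h : ∀ t ∈ Set.Icc (0 : ℝ) 1, ∃ u ∈ T, ∀ w ∈ T, w ≠ u → A w + t * B w < A u + t * B u)
    (hv : v ∈ T) : ∀ w ∈ T, w ≠ v → A w + B w < A v + B v := by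
  by_contra hcon
  push Not at hcon
  obtain ⟨w0, hw0, hne0, hle0⟩ := hcon
  have hB0 : B v < B w0 := by have := h0 w0 hw0 hne0; linarith
  have hS : ({w | w ∈ T ∧ B v < B w} : Set α).Finite := hT.subset fun w hw => hw.1
  obtain ⟨m, ⟨hmT, hmB⟩, hmin⟩ := Set.exists_min_image _ (fun w => (A v - A w) / (B w - B v)) hS
    ⟨w0, hw0, hB0⟩
  have hmv : m ≠ v := by rintro rfl; exact lt_irrefl _ hmB
  have hd : 0 < B m - B v := by linarith
  obtain ⟨x, hx⟩ : ∃ x : ℝ, x = (A v - A m) / (B m - B v) := ⟨_, rfl⟩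
  have hxm : x * (B m - B v) = A v - A m := by rw [hx]; field_simp
  have hx0 : 0 < x := by
    rw [hx]
    have := h0 m hmT hmv
    exact div_pos (by linarith) hd
  have hx1 : x ≤ 1 := by
    have h3 : x ≤ (A v - A w0) / (B w0 - B v) := by rw [hx]; exact hmin w0 ⟨hw0, hB0⟩
    refine h3.trans ?_
    rw [div_le_one (by linarith)]
    linarith
  have hle : ∀ w ∈ T, A w + x * B w ≤ A v + x * B v := by
    intro w hw
    by_cases hwv : w = v
    · rw [hwv]
    by_cases hBw : B v < B w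
    · have h3 : x ≤ (A v - A w) / (B w - B v) := by rw [hx]; exact hmin w ⟨hw, hBw⟩
      rw [le_div_iff₀ (by linarith)] at h3
      nlinarith
    · have h3 := h0 w hw hwv
      have h4 : B w ≤ B v := not_lt.1 hBw
      nlinarith
  obtain ⟨u, hu, hmax⟩ := h x ⟨hx0.le, hx1⟩
  have huv : v = u := by
    by_contra hne
    have h5 := hmax v hv hne
    have h6 := hle u hu
    linarith
  have h7 := hmax m hmT (by rw [← huv]; exact hmv)
  rw [← huv] at h7
  nlinarith

/-- If all points of the segments `[φ, ψ]` and `[ψ, -φ]` have a unique maximum on the finite set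
`T`, then `T` is a singleton. -/
lemma two_segments {E : Type*} [AddCommGroup E] [Module ℝ E] (T : Set (Module.Dual ℝ E))
    (hT : T.Finite) (φ ψ : E)
    (h1 : ∀ t ∈ Set.Icc (0 : ℝ) 1, ∃ v ∈ T, ∀ w ∈ T, w ≠ v →
      w ((1 - t) • φ + t • ψ) < v ((1 - t) • φ + t • ψ))
    (h2 : ∀ t ∈ Set.Icc (0 : ℝ) 1, ∃ v ∈ T, ∀ w ∈ T, w ≠ v →
      w ((1 - t) • ψ + t • (-φ)) < v ((1 - t) • ψ + t • (-φ))) :
    ∃ v, T = {v} := by
  obtain ⟨v, hv, hmax⟩ := h1 0 ⟨le_rfl, zero_le_one⟩
  have e1 : ∀ (w : Module.Dual ℝ E) (t : ℝ),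
      w ((1 - t) • φ + t • ψ) = w φ + t * (w ψ - w φ) := by
    intro w t
    rw [map_add, map_smul, map_smul, smul_eq_mul, smul_eq_mul]
    ring
  have e2 : ∀ (w : Module.Dual ℝ E) (t : ℝ),
      w ((1 - t) • ψ + t • (-φ)) = w ψ + t * (-w φ - w ψ) := by
    intro w t
    rw [map_add, map_smul, map_smul, map_neg, smul_eq_mul, smul_eq_mul]
    ring
  have hA : ∀ w ∈ T, w ≠ v → w φ < v φ := by
    intro w hw hne
    have := hmax w hw hne
    rw [e1, e1] at this
    linarith
  have hB := seg_unique hT (fun w => w φ) (fun w => w ψ - w φ) hA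
    (fun t ht => by
      obtain ⟨u, hu, hm⟩ := h1 t ht
      refine ⟨u, hu, fun w hw hne => ?_⟩
      have := hm w hw hne
      rwa [e1, e1] at this) hv
  have hB' : ∀ w ∈ T, w ≠ v → w ψ < v ψ := by
    intro w hw hne
    have := hB w hw hne
    linarith
  have hC := seg_unique hT (fun w => w ψ) (fun w => -w φ - w ψ) hB'
    (fun t ht => by
      obtain ⟨u, hu, hm⟩ := h2 t ht
      refine ⟨u, hu, fun w hw hne => ?_⟩
      have := hm w hw hne
      rwa [e2, e2] at this) hv
  refine ⟨v, Set.Subset.antisymm (fun w hw => ?_) (fun w hw => by rw [hw]; exact hv)⟩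
  by_contra hne
  have h3 := hA w hw hne
  have h4 := hC w hw hne
  linarith

end Pool.Agent.BNSD
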